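import Pool.Agent.Q192.UKD.Lower

/-! MP_92077f_co, Q1: the upper k-domination number is not monotone in k. -/

set_option autoImplicit false

open Q192.UKD

namespace Pool.Agent.Results.MP_92077f_co.UpperKDominationNotMonotone

/-- It is not true that `Γ_k(G) < Γ_{k+1}(G)` for every nonempty finite graph `G` and every
positive integer `k`. Even the ratio is unbounded: for every `N` there is a finite connected
graph `G` with `N * Γ_4(G) < Γ_3(G)`. -/
theorem result :
    (¬ ∀ (V : Type) [Fintype V] [Nonempty V] (G : SimpleGraph V) (k : ℕ), 1 ≤ k →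
      upperKDomination G k < upperKDomination G (k + 1)) ∧
    ∀ N : ℕ, ∃ (V : Type) (_ : Fintype V) (G : SimpleGraph V),
      G.Connected ∧ N * upperKDomination G 4 < upperKDomination G 3 := by
  refine ⟨?_, exists_graph⟩
  intro h
  obtain ⟨V, hV, G, hG, h1⟩ := exists_graph 1
  have hne : Nonempty V := hG.nonempty
  have h2 := h V G 3 (by norm_num)
  simp only [one_mul] at h1
  exact absurd h2 (not_lt.2 h1.le)

end Pool.Agent.Results.MP_92077f_co.UpperKDominationNotMonotone
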